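import Mathlib

set_option autoImplicit false

namespace Pool.Agent.Results.MP_ee20a5_al.Counterexample

/-- A rigid tuple with a ratio gap above one. -/
theorem result : ∃ (n : ℕ) (x : Fin n → ℚ), 2 ≤ n ∧
    (∀ y : Fin n → ℚ, (∀ i, x i = 1 → y i = 1) → (∀ i j k, x i + x j = x k → y i + y j = y k) →
      y = x) ∧
    (∀ i j, i ≤ j → |x i| ≤ |x j|) ∧
    ∃ i j : Fin n, j.val = i.val + 1 ∧ 1 ≤ |x i| ∧ 2 * |x i| < |x j| := by
  refine ⟨6, ![1, 3, 4, 6, 8, 9], by norm_num, fun y h1 h2 => ?_, by decide +kernel,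
    0, 1, rfl, by norm_num, by norm_num⟩
  have e0 := h1 0 rfl
  have e1 := h2 1 0 2 (by decide +kernel)
  have e2 := h2 2 2 4 (by decide +kernel)
  have e3 := h2 4 0 5 (by decide +kernel)
  have e4 := h2 1 1 3 (by decide +kernel)
  have e5 := h2 3 1 5 (by decide +kernel)
  funext i
  fin_cases i <;> simp <;> linarith

end Pool.Agent.Results.MP_ee20a5_al.Counterexample
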